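import Pool.Agent.H34.N6.Main2

/-!
# Two quadrics in `ℙ⁶`, block F2: the frame over the number field

Conventions: in the coordinates of a frame the form `f` is `JJ d`, that is
`f(y) = 2 (y₀ y₄ + y₁ y₅ + y₂ y₆) + d y₃²`.
-/

set_option autoImplicit false

open Polynomial NumberField IsDedekindDomain Matrix Pool.Agent.H32.QC Pool.Agent.H34.N6

namespace Pool.Agent.H18.N6F

/-! ### Definitions -/

/-- the kernel vectors of the pencil are not isotropic for `f` -/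
def HS {F : Type*} [Field F] {n : ℕ} (f q : Matrix (Fin n) (Fin n) F) : Prop :=
  ∀ (μ : F) (x : Fin n → F), x ≠ 0 → q *ᵥ x = μ • (f *ᵥ x) → x ⬝ᵥ (f *ᵥ x) ≠ 0

/-- the vectors `e₀`, `e₁` and `u(z) = e₆ + z e₃ - (d / 2) z² e₂` -/
def uv {F : Type*} [Field F] (d z : F) : Fin 3 → Fin 7 → F :=
  ![![1, 0, 0, 0, 0, 0, 0], ![0, 1, 0, 0, 0, 0, 0], ![0, 0, -(d / 2) * z ^ 2, z, 0, 0, 1]]

/-- the Gram matrix of `q` on `e₀`, `e₁`, `u(z)` -/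
def gm {F : Type*} [Field F] (q : Matrix (Fin 7) (Fin 7) F) (d z : F) :
    Matrix (Fin 3) (Fin 3) F :=
  fun i j => uv d z i ⬝ᵥ (q *ᵥ uv d z j)

/-- the isometry of `JJ d` which acts by `g` on `e₀ e₁ e₂` and fixes `e₃` -/
noncomputable def LL {F : Type*} [Field F] (g : Matrix (Fin 3) (Fin 3) F) :
    Matrix (Fin 7) (Fin 7) F := fun i j =>
  if h : (i : ℕ) < 3 ∧ (j : ℕ) < 3 then g ⟨i, h.1⟩ ⟨j, h.2⟩
  else if (i : ℕ) = 3 ∧ (j : ℕ) = 3 then 1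
  else if h : 4 ≤ (i : ℕ) ∧ 4 ≤ (j : ℕ) then
    g⁻¹ ⟨(j : ℕ) - 4, by omega⟩ ⟨(i : ℕ) - 4, by omega⟩
  else 0

/-- the form `q` in the new frame -/
noncomputable def QL {F : Type*} [Field F] (q : Matrix (Fin 7) (Fin 7) F)
    (g : Matrix (Fin 3) (Fin 3) F) : Matrix (Fin 7) (Fin 7) F := (LL g)ᵀ * q * LL g

/-- `q` is isotropic on `e₀ e₁ e₂` or on `e₀ e₁ u(z)` for some `z` where it is nondegenerate -/
def Good {F : Type*} [Field F] (q : Matrix (Fin 7) (Fin 7) F) (d : F) : Prop :=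
  TI (blk q) 1 ∨ ∃ z : F, (gm q d z).det ≠ 0 ∧ TI (gm q d z) 1

/-- the permutation of the coordinates which exchanges `j` and `j + 4` if `σ j` is true -/
def sw (σ : Fin 3 → Bool) (j : Fin 7) : Fin 7 :=
  if h : (j : ℕ) < 3 then (if σ ⟨j, h⟩ then ⟨(j : ℕ) + 4, by omega⟩ else j)
  else if h : 4 ≤ (j : ℕ) then
    (if σ ⟨(j : ℕ) - 4, by omega⟩ then ⟨(j : ℕ) - 4, by omega⟩ else j)
  else j

/-- the permutation matrix -/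
def SG {F : Type*} [Field F] (σ : Fin 3 → Bool) : Matrix (Fin 7) (Fin 7) F :=
  fun i j => if i = sw σ j then 1 else 0

/-! ### Algebra over a field -/

/-- FKND: the pencil of the model has no isotropic kernel vectors -/
def T_KND : Prop := ∀ (F : Type) [Field F] (P D : F[X]), P.Monic → P.natDegree = 7 →
  P.Separable → IsCoprime P D → ∀ θ : F, eval θ P ≠ 0 → HS (ft P D θ) (gA P D 0)

/-- FHSB: change of coordinates -/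
def T_HSB : Prop := ∀ (F : Type) [Field F] (f q B : Matrix (Fin 7) (Fin 7) F) (c : F),
  IsUnit B.det → (HS f q → HS (Bᵀ * f * B) (Bᵀ * q * B)) ∧
  (CZ q (f + c • q) → CZ (Bᵀ * f * B) (Bᵀ * q * B)) ∧
  (CZ (Bᵀ * f * B) (Bᵀ * q * B) → CZ q (f + c • q))

/-- FFRM: a totally isotropic triple is the beginning of a frame -/
def T_FRM : Prop := ∀ (F : Type) [Field F], (2 : F) ≠ 0 → ∀ (f : Matrix (Fin 7) (Fin 7) F),
  f.IsSymm → f.det ≠ 0 → ∀ b : Fin 3 → Fin 7 → F, LinearIndependent F b →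
  (∀ i j, b i ⬝ᵥ (f *ᵥ b j) = 0) →
  ∃ (B : Matrix (Fin 7) (Fin 7) F) (d : F), IsUnit B.det ∧ d ≠ 0 ∧ Bᵀ * f * B = JJ d ∧
    ∀ (i : Fin 3) (j : Fin 7), B j ⟨i, by omega⟩ = b i j

/-- FSGM: the swaps are isometries of `JJ d` -/
def T_SGM : Prop := ∀ (F : Type) [Field F] (σ : Fin 3 → Bool) (d : F),
  (SG σ : Matrix (Fin 7) (Fin 7) F)ᵀ * JJ d * SG σ = JJ d ∧
  (SG σ : Matrix (Fin 7) (Fin 7) F) * SG σ = 1 ∧
  ∀ (x : Fin 7 → F) (j : Fin 7), (SG σ *ᵥ x) j = x (sw σ j)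

/-- FSWP: after a swap the first three coordinates of a totally isotropic triple are
independent -/
def T_SWP : Prop := ∀ (F : Type) [Field F], (2 : F) ≠ 0 → ∀ (d : F), d ≠ 0 →
  ∀ c : Fin 3 → Fin 7 → F, LinearIndependent F c → (∀ i j, c i ⬝ᵥ (JJ d *ᵥ c j) = 0) →
  ∃ σ : Fin 3 → Bool, (Matrix.of fun i j : Fin 3 => c i (sw σ ⟨j, by omega⟩)).det ≠ 0

/-- FCEL: approximation in the big cell -/
def T_CEL : Prop := ∀ (K F : Type) [Field K] [NormedField F] (ι : K →+* F), DenseRange ι →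
  (2 : F) ≠ 0 → ∀ (d : K), d ≠ 0 → ∀ c : Fin 3 → Fin 7 → F,
  (∀ i j, c i ⬝ᵥ (JJ (ι d) *ᵥ c j) = 0) →
  (Matrix.of fun i j : Fin 3 => c i ⟨j, by omega⟩).det ≠ 0 → ∀ ε : ℝ, 0 < ε →
  ∃ c' : Fin 3 → Fin 7 → K, (∀ i j, c' i ⬝ᵥ (JJ d *ᵥ c' j) = 0) ∧
    (Matrix.of fun i j : Fin 3 => c' i ⟨j, by omega⟩).det ≠ 0 ∧
    ∀ i j, ‖ι (c' i j) - c i j‖ < ε

/-- FAPX: rational totally isotropic triples are dense -/
def T_APX : Prop := ∀ (K F : Type) [Field K] [NormedField F] (ι : K →+* F), DenseRange ι →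
  (2 : F) ≠ 0 → ∀ (f : Matrix (Fin 7) (Fin 7) K), f.IsSymm → f.det ≠ 0 → TI f 3 →
  ∀ p : Fin 3 → Fin 7 → F, LinearIndependent F p → (∀ i j, p i ⬝ᵥ (f.map ι *ᵥ p j) = 0) →
  ∀ ε : ℝ, 0 < ε → ∃ b : Fin 3 → Fin 7 → K, LinearIndependent K b ∧
    (∀ i j, b i ⬝ᵥ (f *ᵥ b j) = 0) ∧ ∀ i j, ‖ι (b i j) - p i j‖ < ε

/-- FLLV: the Levi elements -/
def T_LLV : Prop := ∀ (F : Type) [Field F] (g : Matrix (Fin 3) (Fin 3) F), g.det ≠ 0 →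
  (∀ d : F, (LL g)ᵀ * JJ d * LL g = JJ d) ∧ LL g * LL g⁻¹ = 1 ∧ IsUnit (LL g).det ∧
  (∀ q : Matrix (Fin 7) (Fin 7) F, blk (QL q g) = gᵀ * blk q * g) ∧
  (∀ (B : Matrix (Fin 7) (Fin 7) F) (i : Fin 3) (j : Fin 7),
    (B * LL g) j ⟨i, by omega⟩ = ∑ l : Fin 3, B j ⟨l, by omega⟩ * g l i) ∧
  ∀ (E : Type) [Field E] (ι : F →+* E), (LL g).map ι = LL (g.map ι)

/-- FCNC: the criterion for ternary forms -/
def T_CNC : Prop := ∀ (F : Type) [Field F] (M : Matrix (Fin 3) (Fin 3) F), M.IsSymm →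
  M.det ≠ 0 → M 0 0 ≠ 0 → M 0 0 * M 1 1 - M 0 1 ^ 2 ≠ 0 →
  (TI M 1 ↔ Sol (-(M 0 0 * M 1 1 - M 0 1 ^ 2)) (-(M 0 0 * M.det)))

/-- FQEV: values of the quartic -/
def T_QEV : Prop := ∀ (F : Type) [Field F] (q : Matrix (Fin 7) (Fin 7) F) (d : F),
  (∀ z : F, eval z (quart q d) = (gm q d z).det) ∧
  (∀ (E : Type) [Field E] (ι : F →+* E), quart (q.map ι) (ι d) = (quart q d).map ι ∧
    blk (q.map ι) = (blk q).map ι ∧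
    ∀ z : F, gm (q.map ι) (ι d) (ι z) = (gm q d z).map ι) ∧
  (∀ z : F, gm q d z 0 0 = q 0 0 ∧ gm q d z 1 1 = q 1 1 ∧ gm q d z 0 1 = q 0 1) ∧
  (q.IsSymm → (blk q).IsSymm ∧ ∀ z : F, (gm q d z).IsSymm)

/-- FQLC: the leading coefficient of the quartic -/
def T_QLC : Prop := ∀ (F : Type) [Field F], (2 : F) ≠ 0 → ∀ (q : Matrix (Fin 7) (Fin 7) F)
  (d : F), (quart q d).coeff 4 = (d / 2) ^ 2 * (blk q).det

/-- FMIN: the minor of an irreducible quartic -/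
def T_MIN : Prop := ∀ (F : Type) [Field F], (2 : F) ≠ 0 → ∀ (q : Matrix (Fin 7) (Fin 7) F)
  (d : F), q.IsSymm → Irreducible (quart q d) → (quart q d).natDegree = 4 →
  q 0 0 * q 1 1 - q 0 1 ^ 2 ≠ 0

/-- FCZP: isotropic vectors of `q` on the planes are common zeros -/
def T_CZP : Prop := ∀ (F : Type) [Field F], (2 : F) ≠ 0 → ∀ (q : Matrix (Fin 7) (Fin 7) F)
  (d : F), (TI (blk q) 1 → CZ (JJ d) q) ∧ ∀ z : F, TI (gm q d z) 1 → CZ (JJ d) q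

/-! ### Moving the common zero -/

/-- FALG: the algebra of the moving lemma -/
def T_ALG : Prop := ∀ (F : Type) [Field F], (2 : F) ≠ 0 → ∀ (q : Matrix (Fin 7) (Fin 7) F)
  (d : F), d ≠ 0 → q.IsSymm → HS (JJ d) q → ¬ TI (blk q) 1 → ∀ x : Fin 7 → F, x ≠ 0 →
  x ⬝ᵥ (JJ d *ᵥ x) = 0 → x ⬝ᵥ (q *ᵥ x) = 0 → ∀ μ : F,
  (∀ i : Fin 3, (q *ᵥ x) ⟨i, by omega⟩ = μ * (JJ d *ᵥ x) ⟨i, by omega⟩) →
  ∃ w : Fin 7 → F, w 3 = 0 ∧ w 4 = 0 ∧ w 5 = 0 ∧ w 6 = 0 ∧ w ⬝ᵥ (JJ d *ᵥ x) = 0 ∧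
    LinearIndependent F ![JJ d *ᵥ x, q *ᵥ x, (q - μ • JJ d) *ᵥ w]

/-- FOPM: the open mapping argument -/
def T_OPM : Prop := ∀ (F : Type) [NontriviallyNormedField F] [CompleteSpace F], (2 : F) ≠ 0 →
  ∀ (f q : Matrix (Fin 7) (Fin 7) F), f.IsSymm → q.IsSymm → ∀ (x w w' : Fin 7 → F) (μ : F),
  x ⬝ᵥ (f *ᵥ x) = 0 → x ⬝ᵥ (q *ᵥ x) = 0 → w ⬝ᵥ (f *ᵥ x) = 0 → w ⬝ᵥ (q *ᵥ x) = 0 →
  w' ⬝ᵥ (f *ᵥ x) ≠ 0 → w' ⬝ᵥ (q *ᵥ x) = μ * (w' ⬝ᵥ (f *ᵥ x)) →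
  LinearIndependent F ![f *ᵥ x, q *ᵥ x, (q - μ • f) *ᵥ w] →
  ∃ x' : Fin 7 → F, x' ⬝ᵥ (f *ᵥ x') = 0 ∧ x' ⬝ᵥ (q *ᵥ x') = 0 ∧
    (w ⬝ᵥ (q *ᵥ x')) * (w' ⬝ᵥ (f *ᵥ x')) - (w ⬝ᵥ (f *ᵥ x')) * (w' ⬝ᵥ (q *ᵥ x')) ≠ 0

/-- FMVX: a common zero for which the two polars are independent on `e₀ e₁ e₂` -/
def T_MVX : Prop := ∀ (F : Type) [NontriviallyNormedField F] [CompleteSpace F], (2 : F) ≠ 0 →
  ∀ (q : Matrix (Fin 7) (Fin 7) F) (d : F), d ≠ 0 → q.IsSymm → HS (JJ d) q →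
  ¬ TI (blk q) 1 → CZ (JJ d) q →
  ∃ x : Fin 7 → F, x ⬝ᵥ (JJ d *ᵥ x) = 0 ∧ x ⬝ᵥ (q *ᵥ x) = 0 ∧
    LinearIndependent F ![![x 4, x 5, x 6], ![(q *ᵥ x) 0, (q *ᵥ x) 1, (q *ᵥ x) 2]]

/-- FLOC: the flag given by a common zero -/
def T_LOC : Prop := ∀ (F : Type) [Field F], (2 : F) ≠ 0 → ∀ (q : Matrix (Fin 7) (Fin 7) F)
  (d : F), q.IsSymm → ¬ TI (blk q) 1 → ∀ x : Fin 7 → F, x ⬝ᵥ (JJ d *ᵥ x) = 0 →
  x ⬝ᵥ (q *ᵥ x) = 0 →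
  LinearIndependent F ![![x 4, x 5, x 6], ![(q *ᵥ x) 0, (q *ᵥ x) 1, (q *ᵥ x) 2]] →
  ∃ (g : Matrix (Fin 3) (Fin 3) F) (z : F), g.det ≠ 0 ∧ (gm (QL q g) d z).det ≠ 0 ∧
    TI (gm (QL q g) d z) 1

/-! ### Openness -/

/-- FSQN: squares are open at one -/
def T_SQN : Prop := ∀ (F : Type) [NontriviallyNormedField F] [CompleteSpace F],
  (2 : F) ≠ 0 → ∃ ε : ℝ, 0 < ε ∧ ∀ x : F, ‖x - 1‖ < ε → IsSquare x

/-- FOPT: isotropy of a nondegenerate form is open -/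
def T_OPT : Prop := ∀ (F : Type) [NontriviallyNormedField F] [CompleteSpace F],
  (2 : F) ≠ 0 → ∀ M : Matrix (Fin 3) (Fin 3) F, M.IsSymm → M.det ≠ 0 → TI M 1 →
  ∃ ε : ℝ, 0 < ε ∧ ∀ M' : Matrix (Fin 3) (Fin 3) F, M'.IsSymm →
    (∀ i j, ‖M' i j - M i j‖ < ε) → M'.det ≠ 0 ∧ TI M' 1

/-- FCTG: continuity of the Gram matrix in the flag -/
def T_CTG : Prop := ∀ (F : Type) [NormedField F] (q : Matrix (Fin 7) (Fin 7) F)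
  (d z : F) (g : Matrix (Fin 3) (Fin 3) F), g.det ≠ 0 → ∀ ε : ℝ, 0 < ε → ∃ δ : ℝ, 0 < δ ∧
  ∀ g' : Matrix (Fin 3) (Fin 3) F, (∀ i j, ‖g' i j - g i j‖ < δ) → g'.det ≠ 0 ∧
    ∀ i j, ‖gm (QL q g') d z i j - gm (QL q g) d z i j‖ < ε

/-- FLCL: the local statement at a place where `q` is anisotropic on `e₀ e₁ e₂` -/
def T_LCL : Prop := ∀ (F : Type) [NontriviallyNormedField F] [CompleteSpace F],
  (2 : F) ≠ 0 → ∀ (q : Matrix (Fin 7) (Fin 7) F) (d : F), d ≠ 0 → q.IsSymm →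
  HS (JJ d) q → ¬ TI (blk q) 1 → CZ (JJ d) q →
  ∃ (g : Matrix (Fin 3) (Fin 3) F) (ε : ℝ), 0 < ε ∧ ∀ g' : Matrix (Fin 3) (Fin 3) F,
    (∀ i j, ‖g' i j - g i j‖ < ε) → g'.det ≠ 0 ∧ Good (QL q g') d

/-! ### Over the number field -/

/-- FFIN: a nondegenerate ternary form is isotropic at almost all finite places -/
def T_FIN : Prop := ∀ (K : Type) [Field K] [NumberField K] (M : Matrix (Fin 3) (Fin 3) K),
  M.IsSymm → M.det ≠ 0 → ∃ S : Finset (FPl K), ∀ v : FPl K, v ∉ S → TI (M.map (ic v)) 1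

/-- weak approximation (proved: `Pool.Agent.H5.QH.All.wap`) -/
def T_WAP : Prop := ∀ (K : Type) [Field K] [NumberField K] (S : Finset (FPl K))
  (x : ∀ v : FPl K, v.adicCompletion K) (y : (K →+* ℝ) → ℝ) (e : ℝ), 0 < e →
  ∃ z : K, (∀ v ∈ S, ‖ic v z - x v‖ < e) ∧ ∀ τ : K →+* ℝ, |τ z - y τ| < e

/-- FDEN: the number field is dense in its completions -/
def T_DEN : Prop := ∀ (K : Type) [Field K] [NumberField K] (w : FPl K), DenseRange (ic w)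

/-- FWAM: weak approximation for matrices, with a different radius at each place -/
def T_WAM : Prop := ∀ (K : Type) [Field K] [NumberField K] (S : Finset (FPl K))
  (g : ∀ v : FPl K, Matrix (Fin 3) (Fin 3) (v.adicCompletion K))
  (h : (K →+* ℝ) → Matrix (Fin 3) (Fin 3) ℝ) (e : FPl K → ℝ) (e' : (K →+* ℝ) → ℝ),
  (∀ v, 0 < e v) → (∀ τ, 0 < e' τ) →
  ∃ m : Matrix (Fin 3) (Fin 3) K, (∀ v ∈ S, ∀ i j, ‖ic v (m i j) - g v i j‖ < e v) ∧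
    ∀ (τ : K →+* ℝ) (i j : Fin 3), ‖τ (m i j) - h τ i j‖ < e' τ

/-- FGLB: the global flag -/
def T_GLB : Prop := ∀ (K : Type) [Field K] [NumberField K] (q : Matrix (Fin 7) (Fin 7) K)
  (d : K), d ≠ 0 → q.IsSymm → (blk q).det ≠ 0 →
  (∀ (E : Type) [Field E] (ι : K →+* E), HS (JJ (ι d)) (q.map ι)) →
  (∀ v : Pl K, AtPl v fun _ _ ι => CZ (JJ (ι d)) (q.map ι)) → ∀ w₁ : FPl K,
  TI ((blk q).map (ic w₁)) 1 → ∀ ε : ℝ, 0 < ε →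
  ∃ g : Matrix (Fin 3) (Fin 3) K, g.det ≠ 0 ∧
    (∀ i j, ‖ic w₁ (g i j) - (1 : Matrix (Fin 3) (Fin 3) (w₁.adicCompletion K)) i j‖ < ε) ∧
    ∀ v : Pl K, AtPl v fun _ _ ι => Good ((QL q g).map ι) (ι d)

/-- FPLK: the local frames, in terms of frames over the number field -/
def T_PLK : Prop := ∀ (K : Type) [Field K] [NumberField K] (P D : K[X]), P.Monic →
  P.natDegree = 7 → P.Separable → IsCoprime P D → ∀ θ : K, eval θ P ≠ 0 → ∀ w₁ : FPl K,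
  SqMod (P.map (ic w₁)) (D.map (ic w₁)) →
  ∃ (p : Fin 3 → Fin 7 → w₁.adicCompletion K) (ε : ℝ), 0 < ε ∧
    LinearIndependent (w₁.adicCompletion K) p ∧
    (∀ i j, p i ⬝ᵥ ((ft P D θ).map (ic w₁) *ᵥ p j) = 0) ∧
    ∀ (B : Matrix (Fin 7) (Fin 7) K) (d : K), d ≠ 0 → Bᵀ * ft P D θ * B = JJ d →
      (∀ (i : Fin 3) (j : Fin 7), ‖ic w₁ (B j ⟨i, by omega⟩) - p i j‖ < ε) →
      Irreducible (quart (Bᵀ * gA P D 0 * B) d) ∧ (quart (Bᵀ * gA P D 0 * B) d).natDegree = 4 ∧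
        (blk (Bᵀ * gA P D 0 * B)).det ≠ 0 ∧ TI ((blk (Bᵀ * gA P D 0 * B)).map (ic w₁)) 1

/-- FF2A: the frame over the number field -/
def T_F2A : Prop := ∀ (K : Type) [Field K] [NumberField K] (P D : K[X]), P.Monic →
  P.natDegree = 7 → P.Separable → IsCoprime P D → ∀ θ : K, eval θ P ≠ 0 → TI (ft P D θ) 3 →
  LocCZ (gA P D 0) (gA P D 1) →
  (∃ w : FPl K, SqMod (P.map (ic w)) (D.map (ic w))) →
  ∃ (B : Matrix (Fin 7) (Fin 7) K) (d : K), IsUnit B.det ∧ d ≠ 0 ∧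
    Bᵀ * ft P D θ * B = JJ d ∧ Irreducible (quart (Bᵀ * gA P D 0 * B) d) ∧
    (quart (Bᵀ * gA P D 0 * B) d).natDegree = 4 ∧ (blk (Bᵀ * gA P D 0 * B)).det ≠ 0 ∧
    ∀ v : Pl K, AtPl v fun _ _ ι => Good ((Bᵀ * gA P D 0 * B).map ι) (ι d)

/-- the part of helper23 (proved: `Pool.Agent.H23.N6.pf_F2B`) -/
def T_F2B : Prop := ∀ (K : Type) [Field K] [NumberField K] (a c : K) (Q : K[X]), a ≠ 0 →
  c ≠ 0 → Q.Monic → Irreducible Q → Q.natDegree = 4 →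
  (∀ v : Pl K, (AtPl v fun _ _ ι => ∃ z, eval₂ ι z Q ≠ 0 ∧ Sol (ι a) (ι c * eval₂ ι z Q)) ∨
    hs v a c = 1) →
  Sol a c ∨ ∃ (K' : Type) (_ : Field K') (_ : NumberField K') (_ : Algebra K K'),
    Odd (Module.finrank K K') ∧ ∃ z : K', aeval z Q ≠ 0 ∧
      Sol (algebraMap K K' a) (algebraMap K K' c * aeval z Q)

end Pool.Agent.H18.N6F
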