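import Pool.Agent.H18.N6F.F2A
import Pool.Agent.H1.N6F.MIN
import Pool.Agent.H1.N6F.QLC
import Pool.Agent.H4.N6F.LOC
import Pool.Agent.H5.N6F.ALG
import Pool.Agent.H5.N6F.APX
import Pool.Agent.H5.N6F.CEL
import Pool.Agent.H5.N6F.SWP
import Pool.Agent.H23.N6.Sym
import Pool.Agent.H23.N6F.FF2S
import Pool.Agent.H23.N6F.FGLB
import Pool.Agent.H29.N6F.KND
import Pool.Agent.H29.N6F.LCL
import Pool.Agent.H50.N6F.SQN
import Pool.Agent.H61.N6F.CNC
import Pool.Agent.H62.N6F.FRM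
import Pool.Agent.H62.N6F.LLV
import Pool.Agent.H69.N6F.CZP
import Pool.Agent.H79.N6F.DEN
import Pool.Agent.H91.N6F.CTG
import Pool.Agent.H91.N6F.FIN
import Pool.Agent.H91.N6F.HSB
import Pool.Agent.H91.N6F.QEV
import Pool.Agent.H94.N6F.MVX
import Pool.Agent.H94.N6F.OPM
import Pool.Agent.H94.N6F.OPT
import Pool.Agent.H70.N6.PLO
import Pool.Agent.H70.N6.LSR
import Pool.Agent.H65.N6P.All
import Pool.Agent.H13.N6E.Dev
import Pool.Agent.H5.QH.All

/-!
# Block F2: all rows together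
-/

set_option autoImplicit false

open Polynomial NumberField IsDedekindDomain Matrix Pool.Agent.H32.QC Pool.Agent.H34.N6

namespace Pool.Agent.H18.N6F.All

theorem adc : T_ADC := Pool.Agent.H23.QCF.LA.adc
theorem knd : T_KND := Pool.Agent.H29.N6F.pf_KND
theorem hsb : T_HSB := Pool.Agent.H91.N6F.pf_HSB
theorem frm : T_FRM := Pool.Agent.H62.N6F.pf_FRM
theorem sgm : T_SGM := Pool.Agent.H5.N6F.pf_SGM
theorem swp : T_SWP := Pool.Agent.H5.N6F.pf_SWP
theorem cel : T_CEL := Pool.Agent.H5.N6F.pf_CEL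
theorem apx : T_APX := Pool.Agent.H5.N6F.pf_APX frm sgm swp cel
theorem llv : T_LLV := Pool.Agent.H62.N6F.pf_LLV
theorem cnc : T_CNC := Pool.Agent.H61.N6F.pf_CNC
theorem qev : T_QEV := Pool.Agent.H91.N6F.pf_QEV
theorem qlc : T_QLC := Pool.Agent.H1.N6F.pf_QLC
theorem min : T_MIN := Pool.Agent.H1.N6F.pf_MIN
theorem czp : T_CZP := Pool.Agent.H69.N6F.pf_CZP
theorem alg : T_ALG := Pool.Agent.H5.N6F.pf_ALG
theorem opm : T_OPM := Pool.Agent.H94.N6F.pf_OPM
theorem mvx : T_MVX := Pool.Agent.H94.N6F.pf_MVX alg opm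
theorem sqn : T_SQN := Pool.Agent.H50.N6F.pf_SQN
theorem opt : T_OPT := Pool.Agent.H94.N6F.pf_OPT sqn
theorem ctg : T_CTG := Pool.Agent.H91.N6F.pf_CTG
theorem fin : T_FIN := Pool.Agent.H91.N6F.pf_FIN
theorem wap : T_WAP := Pool.Agent.H5.QH.All.wap
theorem den : T_DEN := Pool.Agent.H79.N6F.pf_DEN wap
theorem wam : T_WAM := Pool.Agent.H5.N6F.pf_WAM wap
theorem plo : T_PLO := Pool.Agent.H70.N6.pf_PLO
theorem plk : T_PLK := pf_PLK plo adc qev

theorem loc : T_LOC := Pool.Agent.H4.N6F.pf_LOC llv qev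
theorem lcl : T_LCL := Pool.Agent.H29.N6F.pf_LCL mvx loc opt ctg qev
theorem glb : T_GLB := Pool.Agent.H23.N6F.pf_GLB lcl fin wam llv ctg qev adc
theorem f2a : T_F2A := pf_F2A knd hsb frm apx den plk llv glb

/-- the point of odd degree, from the device and the local statement for symbols -/
theorem f2s_of (hDEV : T_DEV) (hLS : T_LS) : T_F2S :=
  Pool.Agent.H23.N6F.pf_F2S f2a (Pool.Agent.H23.N6.pf_F2B hDEV hLS) cnc qev qlc min czp hsb

/-- symbols, all places -/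
theorem ls : T_LS := by
  intro k _ _ D a c ha hc hD hsep hev v h
  cases v with
  | inl v => exact Pool.Agent.H65.N6P.p_LSF k D a c ha hc hD hsep hev v h
  | inr v => exact Pool.Agent.H70.N6.pf_LSR k D a c ha hc hD hsep hev v h

/-- block F2: the point of odd degree, without hypotheses -/
theorem f2s : T_F2S := f2s_of Pool.Agent.H13.N6E.dev ls

end Pool.Agent.H18.N6F.All
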