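import Pool.Agent.H18.N6F.PLK

/-! # Row FF2A -/

set_option autoImplicit false

open Polynomial NumberField IsDedekindDomain Matrix Pool.Agent.H32.QC Pool.Agent.H34.N6
open Pool.Agent.H18.N6F

namespace Pool.Agent.H18.N6F

theorem atPl_mono {K : Type} [Field K] [NumberField K] (v : Pl K)
    {Φ Ψ : ∀ (F : Type) [Field F], (K →+* F) → Prop} (h : ∀ (F : Type) [Field F] (ι : K →+* F),
      Φ F ι → Ψ F ι) (h1 : AtPl v Φ) : AtPl v Ψ := by
  cases v with
  | inl v => exact h _ _ h1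
  | inr φ => exact h _ _ h1

theorem det_map_ne {K F : Type*} [Field K] [Field F] (ι : K →+* F) {n : ℕ}
    {B : Matrix (Fin n) (Fin n) K} (h : IsUnit B.det) : IsUnit (B.map ι).det := by
  have h7' : (B.map ι).det = ι B.det := (RingHom.map_det ι _).symm
  rw [h7']
  exact h.map ι

theorem close_cols {K F : Type} [Field K] [NormedField F] (ι : K →+* F)
    (B : Matrix (Fin 7) (Fin 7) K) (ε : ℝ) (hε : 0 < ε) : ∃ δ : ℝ, 0 < δ ∧
    ∀ g : Matrix (Fin 3) (Fin 3) K,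
      (∀ i j, ‖ι (g i j) - (1 : Matrix (Fin 3) (Fin 3) F) i j‖ < δ) →
      ∀ (i : Fin 3) (j : Fin 7),
        ‖ι (∑ l : Fin 3, B j ⟨l, by omega⟩ * g l i) - ι (B j ⟨i, by omega⟩)‖ < ε := by
  set C : ℝ := ∑ j : Fin 7, ∑ l : Fin 3, ‖ι (B j ⟨l, by omega⟩)‖ with hC
  have hC0 : 0 ≤ C := Finset.sum_nonneg fun j _ => Finset.sum_nonneg fun l _ => norm_nonneg _
  refine ⟨ε / (C + 1), by positivity, ?_⟩
  intro g hg i j
  have h1 : ι (∑ l : Fin 3, B j ⟨l, by omega⟩ * g l i) - ι (B j ⟨i, by omega⟩) =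
      ∑ l : Fin 3, ι (B j ⟨l, by omega⟩) *
        (ι (g l i) - (1 : Matrix (Fin 3) (Fin 3) F) l i) := by
    rw [map_sum]
    simp only [map_mul, mul_sub, Finset.sum_sub_distrib]
    congr 1
    rw [Finset.sum_eq_single i]
    · rw [Matrix.one_apply_eq, mul_one]
    · intro l _ hl
      rw [Matrix.one_apply_ne hl, mul_zero]
    · intro h
      exact absurd (Finset.mem_univ i) h
  rw [h1]
  calc ‖∑ l : Fin 3, ι (B j ⟨l, by omega⟩) *
        (ι (g l i) - (1 : Matrix (Fin 3) (Fin 3) F) l i)‖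
      ≤ ∑ l : Fin 3, ‖ι (B j ⟨l, by omega⟩)‖ * (ε / (C + 1)) := by
        refine (norm_sum_le _ _).trans (Finset.sum_le_sum fun l _ => ?_)
        rw [norm_mul]
        exact mul_le_mul_of_nonneg_left (hg l i).le (norm_nonneg _)
    _ = (∑ l : Fin 3, ‖ι (B j ⟨l, by omega⟩)‖) * (ε / (C + 1)) := by
        rw [Finset.sum_mul]
    _ ≤ C * (ε / (C + 1)) := by
        apply mul_le_mul_of_nonneg_right _ (by positivity)
        exact Finset.single_le_sum (f := fun j : Fin 7 => ∑ l : Fin 3, ‖ι (B j ⟨l, by omega⟩)‖)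
          (fun j _ => Finset.sum_nonneg fun l _ => norm_nonneg _) (Finset.mem_univ j)
    _ < ε := by
        rw [← mul_div_assoc, div_lt_iff₀ (by positivity)]
        nlinarith

theorem pf_F2A (hKND : T_KND) (hHSB : T_HSB) (hFRM : T_FRM) (hAPX : T_APX) (hDEN : T_DEN)
    (hPLK : T_PLK) (hLLV : T_LLV) (hGLB : T_GLB) : T_F2A := by
  intro K _ _ P D hP h7 hsep hco θ hθ hTI hloc hw
  obtain ⟨w₁, hsq⟩ := hw
  have h2K : (2 : K) ≠ 0 := two_ne_zero
  have h2F : (2 : w₁.adicCompletion K) ≠ 0 := by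
    have : ic w₁ (2 : K) ≠ 0 := (map_ne_zero (ic w₁)).2 h2K
    rwa [map_ofNat] at this
  have hfs : (ft P D θ).IsSymm := ft_symm P D θ
  have hfd : (ft P D θ).det ≠ 0 := ft_det_ne hP h7 hco hθ
  obtain ⟨p, ε, hε, hpli, hpiso, hPL⟩ := hPLK K P D hP h7 hsep hco θ hθ w₁ hsq
  obtain ⟨b, hbli, hbiso, hbcl⟩ := hAPX K (w₁.adicCompletion K) (ic w₁) (hDEN K w₁) h2F
    (ft P D θ) hfs hfd hTI p hpli hpiso (ε / 2) (by positivity)
  obtain ⟨B0, d, hB0, hd, hB0f, hB0c⟩ := hFRM K h2K (ft P D θ) hfs hfd b hbli hbiso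
  obtain ⟨-, -, hbl, hti⟩ := hPL B0 d hd hB0f (by
    intro i j
    rw [hB0c]
    exact (hbcl i j).trans (by linarith))
  set q0 := B0ᵀ * gA P D 0 * B0 with hq0
  have hq0s : q0.IsSymm := by
    have h1 : (gA P D 0)ᵀ = gA P D 0 := gA_symm P D 0
    unfold Matrix.IsSymm
    rw [hq0, Matrix.transpose_mul, Matrix.transpose_mul, Matrix.transpose_transpose, h1,
      Matrix.mul_assoc]
  have hHS : ∀ (E : Type) [Field E] (ι : K →+* E), HS (JJ (ι d)) (q0.map ι) := by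
    intro E _ ι
    have hco' : IsCoprime (P.map ι) (D.map ι) := by
      obtain ⟨a, b, hab⟩ := hco
      refine ⟨a.map ι, b.map ι, ?_⟩
      rw [← Polynomial.map_mul, ← Polynomial.map_mul, ← Polynomial.map_add, hab,
        Polynomial.map_one]
    have hθ' : eval (ι θ) (P.map ι) ≠ 0 := by
      rw [Polynomial.eval_map, Polynomial.eval₂_at_apply]
      exact (map_ne_zero ι).2 hθ
    have h1 := hKND E (P.map ι) (D.map ι) (hP.map ι) (by rw [hP.natDegree_map, h7]) hsep.map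
      hco' (ι θ) hθ'
    rw [ft_map hP, gA_map hP] at h1
    have h2 := (hHSB E ((ft P D θ).map ι) ((gA P D 0).map ι) (B0.map ι) 0
      (det_map_ne ι hB0)).1 h1
    rw [← conj_map, ← conj_map, hB0f, JJ_map] at h2
    exact h2
  have hCZ : ∀ v : Pl K, AtPl v fun _ _ ι => CZ (JJ (ι d)) (q0.map ι) := by
    intro v
    apply atPl_mono v _ (hloc v)
    intro E _ ι h1
    have h2 : (gA P D 1).map ι = (ft P D θ).map ι + ι θ • (gA P D 0).map ι := by
      ext i j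
      simp [ft]
    rw [h2] at h1
    have h3 := (hHSB E ((ft P D θ).map ι) ((gA P D 0).map ι) (B0.map ι) (ι θ)
      (det_map_ne ι hB0)).2.1 h1
    rw [← conj_map, ← conj_map, hB0f, JJ_map] at h3
    exact h3
  obtain ⟨δ, hδ, hδ'⟩ := close_cols (ic w₁) B0 (ε / 2) (by positivity)
  obtain ⟨g, hg, hg1, hgood⟩ := hGLB K q0 d hd hq0s hbl hHS hCZ w₁ hti δ hδ
  obtain ⟨hJ, -, hu, -, hcol, -⟩ := hLLV K g hg
  have hBq : (B0 * LL g)ᵀ * gA P D 0 * (B0 * LL g) = QL q0 g := by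
    unfold QL
    rw [hq0, Matrix.transpose_mul]
    simp only [Matrix.mul_assoc]
  have hBf : (B0 * LL g)ᵀ * ft P D θ * (B0 * LL g) = JJ d := by
    rw [← hJ d, ← hB0f, Matrix.transpose_mul]
    simp only [Matrix.mul_assoc]
  obtain ⟨k1, k2, k3, -⟩ := hPL (B0 * LL g) d hd hBf (by
    intro i j
    rw [hcol]
    have e1 := hδ' g hg1 i j
    have e2 := hbcl i j
    rw [← hB0c i j] at e2
    calc ‖ic w₁ (∑ l : Fin 3, B0 j ⟨l, by omega⟩ * g l i) - p i j‖
        = ‖(ic w₁ (∑ l : Fin 3, B0 j ⟨l, by omega⟩ * g l i) - ic w₁ (B0 j ⟨i, by omega⟩)) +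
            (ic w₁ (B0 j ⟨i, by omega⟩) - p i j)‖ := by
          congr 1
          ring
      _ ≤ _ := norm_add_le _ _
      _ < ε / 2 + ε / 2 := add_lt_add e1 e2
      _ = ε := by ring)
  refine ⟨B0 * LL g, d, ?_, hd, hBf, k1, k2, k3, ?_⟩
  · rw [Matrix.det_mul]
    exact hB0.mul hu
  · rw [hBq]
    exact hgood

end Pool.Agent.H18.N6F
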