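import Pool.Agent.H18.N6F.Targets
import Pool.Agent.H34.N6.LibB
import Pool.Agent.H32.QC.TargetsL

/-! # Row FPLK -/

set_option autoImplicit false

open Polynomial NumberField IsDedekindDomain Matrix Pool.Agent.H32.QC Pool.Agent.H34.N6
open Pool.Agent.H18.N6F

namespace Pool.Agent.H18.N6F

theorem irr_of_map {K F : Type*} [Field K] [Field F] (ι : K →+* F) {g : K[X]}
    (h : Irreducible (g.map ι)) : Irreducible g := by
  have hu : ∀ a : K[X], IsUnit (a.map ι) → IsUnit a := by
    intro a ha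
    rw [Polynomial.isUnit_iff_degree_eq_zero] at ha ⊢
    rwa [Polynomial.degree_map] at ha
  constructor
  · intro hg
    apply h.not_isUnit
    exact hg.map (mapRingHom ι)
  · intro a b hab
    have h1 : g.map ι = a.map ι * b.map ι := by rw [hab, Polynomial.map_mul]
    rcases h.isUnit_or_isUnit h1 with h2 | h2
    · exact Or.inl (hu a h2)
    · exact Or.inr (hu b h2)

theorem JJ_map {K F : Type*} [Field K] [Field F] (ι : K →+* F) (d : K) :
    (JJ d).map ι = JJ (ι d) := by
  ext i j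
  rw [Matrix.map_apply]
  unfold JJ
  split_ifs <;> simp

theorem conj_map {K F : Type*} [Field K] [Field F] (ι : K →+* F) {n : ℕ}
    (B f : Matrix (Fin n) (Fin n) K) :
    (Bᵀ * f * B).map ι = (B.map ι)ᵀ * f.map ι * B.map ι := by
  rw [Matrix.map_mul, Matrix.map_mul, Matrix.transpose_map]

theorem pf_PLK (hPLO : T_PLO) (hADC : T_ADC) (hQEV : T_QEV) : T_PLK := by
  intro K _ _ P D hP h7 hsep hco θ hθ w₁ hsq
  obtain ⟨hp, hc, x, hx⟩ := hADC K w₁
  letI nn : NontriviallyNormedField (w₁.adicCompletion K) :=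
    { (inferInstance : NormedField (w₁.adicCompletion K)) with non_trivial := ⟨x, hx⟩ }
  have hco' : IsCoprime (P.map (ic w₁)) (D.map (ic w₁)) := by
    obtain ⟨a, b, hab⟩ := hco
    refine ⟨a.map (ic w₁), b.map (ic w₁), ?_⟩
    rw [← Polynomial.map_mul, ← Polynomial.map_mul, ← Polynomial.map_add, hab,
      Polynomial.map_one]
  have hθ' : eval (ic w₁ θ) (P.map (ic w₁)) ≠ 0 := by
    rw [Polynomial.eval_map, Polynomial.eval₂_at_apply]
    exact (map_ne_zero (ic w₁)).2 hθ
  obtain ⟨p, ε, hε, hli, hiso, hB⟩ := hPLO (w₁.adicCompletion K) (P.map (ic w₁))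
    (D.map (ic w₁)) (hP.map _) (by rw [hP.natDegree_map, h7]) (hsep.map) hco' hsq (ic w₁ θ) hθ'
  refine ⟨p, ε, hε, hli, ?_, ?_⟩
  · intro i j
    have := hiso i j
    rwa [ft_map hP] at this
  · intro B d hd hBf hcl
    have h1 := hB (B.map (ic w₁)) (ic w₁ d) ((map_ne_zero (ic w₁)).2 hd)
      (by rw [ft_map hP, ← conj_map, hBf, JJ_map]) (by
        intro i j
        exact hcl i j)
    rw [gA_map hP, ← conj_map] at h1
    obtain ⟨hq1, hq2, -⟩ := (hQEV K (Bᵀ * gA P D 0 * B) d).2.1 (w₁.adicCompletion K) (ic w₁)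
    rw [hq1, hq2] at h1
    obtain ⟨h2, h3, h4, h5⟩ := h1
    refine ⟨irr_of_map _ h2, ?_, ?_, h5⟩
    · rwa [Polynomial.natDegree_map] at h3
    · intro h6
      apply h4
      have h7' : ((blk (Bᵀ * gA P D 0 * B)).map (ic w₁)).det =
          ic w₁ (blk (Bᵀ * gA P D 0 * B)).det := (RingHom.map_det (ic w₁) _).symm
      rw [h7', h6, map_zero]

end Pool.Agent.H18.N6F
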